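import Pool.Agent.R249.Sp.Tree

/-! Completeness: all defects vanish. -/

set_option autoImplicit false

open MeasureTheory Set Filter Topology
open scoped ENNReal

namespace Pool.Agent.R249.Sp

lemma abs_zero {d : ℝ → ℝ} (h0 : ∀ x, 0 ≤ d x) (h1 : ∀ x, d x ≤ 1 - M x)
    (hrec : ∀ x, d x ≤ Real.cos (Real.pi * x / 2) ^ 2 * d (x / 4) +
      Real.sin (Real.pi * x / 2) ^ 2 * d ((x + 1) / 4)) (x : ℝ) : d x = 0 := by
  have hd1 : ∀ x, d x ≤ 1 := fun x => (h1 x).trans (by linarith [M_nonneg x])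
  set s : ℝ := sSup (d '' Icc (-1 / 2) (1 / 2)) with hs
  have hbdd : BddAbove (d '' Icc (-1 / 2) (1 / 2)) := ⟨1, by rintro _ ⟨x, -, rfl⟩; exact hd1 x⟩
  have hle : ∀ x ∈ Icc (-1 / 2 : ℝ) (1 / 2), d x ≤ s := fun x hx =>
    le_csSup hbdd ⟨x, hx, rfl⟩
  have hs0 : 0 ≤ s := (h0 0).trans (hle 0 ⟨by norm_num, by norm_num⟩)
  -- iteration along the zero digits
  have iter : ∀ (n : ℕ) (x : ℝ), x ∈ Icc (-1 / 2 : ℝ) (1 / 2) → ∃ P : ℝ, 0 ≤ P ∧ P ≤ 1 ∧
      M x = P * M (x / 4 ^ n) ∧ d x ≤ P * d (x / 4 ^ n) + (1 - P) * s := by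
    intro n
    induction n with
    | zero =>
      intro x _
      exact ⟨1, by norm_num, le_rfl, by simp, by simp⟩
    | succ n ih =>
      intro x hx
      have hx4 : x / 4 ∈ Icc (-1 / 2 : ℝ) (1 / 2) := by
        constructor
        · linarith [hx.1]
        · linarith [hx.2]
      have hx5 : (x + 1) / 4 ∈ Icc (-1 / 2 : ℝ) (1 / 2) := by
        constructor
        · linarith [hx.1]
        · linarith [hx.2]
      obtain ⟨P, hP0, hP1, hPM, hPd⟩ := ih (x / 4) hx4
      have e : x / 4 / 4 ^ n = x / 4 ^ (n + 1) := by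
        rw [div_div, pow_succ, mul_comm]
      rw [e] at hPM hPd
      set c := Real.cos (Real.pi * x / 2) ^ 2 with hc
      have hc0 : 0 ≤ c := sq_nonneg _
      have hsin : Real.sin (Real.pi * x / 2) ^ 2 = 1 - c := by
        have := Real.sin_sq_add_cos_sq (Real.pi * x / 2)
        linarith
      have hc1 : c ≤ 1 := by
        have := sq_nonneg (Real.sin (Real.pi * x / 2))
        linarith
      refine ⟨c * P, mul_nonneg hc0 hP0, mul_le_one₀ hc1 hP0 hP1, ?_, ?_⟩
      · rw [M_rec x, hPM]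
        ring
      · have h2 := hrec x
        rw [hsin] at h2
        have h3 := hle _ hx5
        have h4 : (1 - c) * d ((x + 1) / 4) ≤ (1 - c) * s :=
          mul_le_mul_of_nonneg_left h3 (by linarith)
        have h5 : c * d (x / 4) ≤ c * (P * d (x / 4 ^ (n + 1)) + (1 - P) * s) :=
          mul_le_mul_of_nonneg_left hPd hc0
        nlinarith
  have hbound : ∀ x ∈ Icc (-1 / 2 : ℝ) (1 / 2), d x ≤ 3 / 4 * s := by
    intro x hx
    have hMx : 1 / 4 ≤ M x := by
      apply M_lower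
      rw [abs_le]
      constructor
      · linarith [hx.1]
      · linarith [hx.2]
    have key : ∀ n : ℕ, d x ≤ (1 - M (x / 4 ^ n)) + (1 - M x) * s := by
      intro n
      obtain ⟨P, hP0, hP1, hPM, hPd⟩ := iter n x hx
      have h2 := h1 (x / 4 ^ n)
      have h3 := M_le_one (x / 4 ^ n)
      have h4 : M x ≤ P := by
        rw [hPM]
        exact mul_le_of_le_one_right hP0 h3
      have h5 : P * d (x / 4 ^ n) ≤ 1 - M (x / 4 ^ n) := by
        calc P * d (x / 4 ^ n) ≤ 1 * d (x / 4 ^ n) :=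
              mul_le_mul_of_nonneg_right hP1 (h0 _)
          _ ≤ _ := by rw [one_mul]; exact h2
      have h6 : (1 - P) * s ≤ (1 - M x) * s := mul_le_mul_of_nonneg_right (by linarith) hs0
      linarith
    have hlim : Tendsto (fun n : ℕ => (1 - M (x / 4 ^ n)) + (1 - M x) * s) atTop
        (𝓝 ((1 - 1) + (1 - M x) * s)) := ((tendsto_M x).const_sub 1).add_const _
    have h2 := ge_of_tendsto' hlim key
    have h3 : (1 - M x) * s ≤ 3 / 4 * s := mul_le_mul_of_nonneg_right (by linarith) hs0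
    linarith
  have hs34 : s ≤ 3 / 4 * s := by
    refine csSup_le (⟨d 0, ⟨0, ⟨by norm_num, by norm_num⟩, rfl⟩⟩ :
      (d '' Icc (-1 / 2 : ℝ) (1 / 2)).Nonempty) ?_
    rintro _ ⟨x, hx, rfl⟩
    exact hbound x hx
  have hszero : s = 0 := by linarith
  have hI : ∀ x : ℝ, |x| ≤ 1 / 2 → d x = 0 := by
    intro x hx
    rw [abs_le] at hx
    have := hle x ⟨by linarith [hx.1], hx.2⟩
    rw [hszero] at this
    exact le_antisymm this (h0 x)
  -- all points
  have hall : ∀ (n : ℕ) (x : ℝ), |x| ≤ (1 / 6 : ℝ) * 4 ^ n + 1 / 3 → d x = 0 := by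
    intro n
    induction n with
    | zero =>
      intro x hx
      apply hI
      rw [pow_zero] at hx
      linarith
    | succ n ih =>
      intro x hx
      rw [pow_succ] at hx
      rw [abs_le] at hx
      have a1 : d (x / 4) = 0 := by
        apply ih
        rw [abs_le]
        constructor <;> linarith [hx.1, hx.2, pow_pos (by norm_num : (0 : ℝ) < 4) n]
      have a2 : d ((x + 1) / 4) = 0 := by
        apply ih
        rw [abs_le]
        constructor <;> linarith [hx.1, hx.2, pow_pos (by norm_num : (0 : ℝ) < 4) n]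
      have h2 := hrec x
      rw [a1, a2, mul_zero, mul_zero, add_zero] at h2
      exact le_antisymm h2 (h0 x)
  obtain ⟨n, hn⟩ := pow_unbounded_of_one_lt (6 * |x|) (by norm_num : (1 : ℝ) < 4)
  exact hall n x (by linarith)

lemma toReal_D_le (v : Node) (x : ℝ) : (D v x).toReal ≤ 1 - M x := by
  have h := ENNReal.toReal_mono (by simp) (D_le v x)
  rw [ENNReal.toReal_sub_of_le (by
    rw [← ENNReal.ofReal_one]; exact ENNReal.ofReal_le_ofReal (M_le_one x)) (by simp),
    ENNReal.toReal_ofReal (M_nonneg x)] at h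
  simpa using h

lemma D_ne_top (v : Node) (x : ℝ) : D v x ≠ ⊤ := ((D_le_one v x).trans_lt ENNReal.one_lt_top).ne

lemma D_std (x : ℝ) : D .std x = 0 := by
  have h := abs_zero (d := fun x => (D .std x).toReal) (fun x => ENNReal.toReal_nonneg)
    (toReal_D_le .std) ?_ x
  · rw [ENNReal.toReal_eq_zero_iff] at h
    rcases h with h | h
    · exact h
    · exact absurd h (D_ne_top _ _)
  · intro x
    have h1 := D_rec (v := .std) trivial x
    simp only [n0, n1, dg] at h1
    have h2 := ENNReal.toReal_mono (ENNReal.add_ne_top.mpr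
      ⟨ENNReal.mul_ne_top ENNReal.ofReal_ne_top (D_ne_top _ _),
        ENNReal.mul_ne_top ENNReal.ofReal_ne_top (D_ne_top _ _)⟩) h1
    rw [ENNReal.toReal_add (ENNReal.mul_ne_top ENNReal.ofReal_ne_top (D_ne_top _ _))
      (ENNReal.mul_ne_top ENNReal.ofReal_ne_top (D_ne_top _ _)), ENNReal.toReal_mul,
      ENNReal.toReal_mul, ENNReal.toReal_ofReal (sq_nonneg _),
      ENNReal.toReal_ofReal (sq_nonneg _)] at h2
    simpa using h2

lemma sin_sq_le {t a : ℤ} (hg : Good (.trap t a)) {y : ℝ}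
    (hy : |y + (a : ℝ) / t| ≤ 1 / (2 * t)) :
    Real.sin (Real.pi * y / 2) ^ 2 ≤ 1 - 1 / (2 * (t : ℝ)) ^ 2 := by
  obtain ⟨h3, ht, ha, hcop⟩ := hg
  have ht0 : (0 : ℝ) < t := by exact_mod_cast (by omega : (0 : ℤ) < t)
  -- nearest odd integer
  set m : ℤ := 2 * ⌊y / 2⌋ + 1 with hm
  have hm1 : |y - m| ≤ 1 := by
    have h1 := Int.floor_le (y / 2)
    have h2 := Int.lt_floor_add_one (y / 2)
    rw [hm, abs_le]
    push_cast
    constructor <;> linarith
  have hne : a + t * m ≠ 0 := by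
    intro h
    have h4 : t ∣ a := ⟨-m, by linarith⟩
    have h5 : IsUnit t := hcop.isUnit_of_dvd' h4 dvd_rfl
    rw [Int.isUnit_iff] at h5
    omega
  have h5 : (1 : ℝ) ≤ |(a : ℝ) + t * m| := by
    have : (1 : ℤ) ≤ |a + t * m| := Int.one_le_abs hne
    exact_mod_cast this
  have h6 : 1 / (t : ℝ) ≤ |(a : ℝ) / t + m| := by
    have : (a : ℝ) / t + m = (a + t * m) / t := by field_simp
    rw [this, abs_div, abs_of_pos ht0]
    exact div_le_div_of_nonneg_right h5 ht0.le
  have h7 : 1 / (2 * (t : ℝ)) ≤ |y - m| := by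
    have e : y - m = (y + (a : ℝ) / t) - ((a : ℝ) / t + m) := by ring
    have h8 : |(a : ℝ) / t + m| - |y + (a : ℝ) / t| ≤ |y - m| := by
      rw [e, abs_sub_comm]
      exact abs_sub_abs_le_abs_sub _ _
    have h9 : 1 / (t : ℝ) - 1 / (2 * t) = 1 / (2 * t) := by
      field_simp
      norm_num
    linarith
  -- cos
  have h10 : Real.cos (Real.pi * y / 2) ^ 2 = Real.sin (Real.pi / 2 * |y - m|) ^ 2 := by
    have e1 : Real.pi * y / 2 = (Real.pi / 2 * (y - m) + Real.pi / 2) + ⌊y / 2⌋ * Real.pi := by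
      rw [hm]
      push_cast
      ring
    rw [e1, Real.cos_add_int_mul_pi, mul_pow, Real.cos_add_pi_div_two, neg_sq]
    have h2 : (((-1 : ℝ) ^ ⌊y / 2⌋) ^ 2) = 1 := by
      rw [← zpow_natCast, ← zpow_mul, mul_comm, zpow_mul]
      norm_num
    rw [h2, one_mul]
    rcases abs_cases (y - m) with ⟨h, -⟩ | ⟨h, -⟩
    · rw [h]
    · rw [h, mul_neg, Real.sin_neg, neg_sq]
  have hpi := Real.pi_pos
  have h11 : |y - m| ≤ Real.sin (Real.pi / 2 * |y - m|) := by
    have := Real.mul_le_sin (x := Real.pi / 2 * |y - m|) (by positivity) (by nlinarith)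
    have e : 2 / Real.pi * (Real.pi / 2 * |y - m|) = |y - m| := by
      field_simp
    rwa [e] at this
  have h12 : (1 / (2 * (t : ℝ))) ^ 2 ≤ Real.cos (Real.pi * y / 2) ^ 2 := by
    rw [h10]
    exact pow_le_pow_left₀ (by positivity) (h7.trans h11) 2
  have h13 := Real.sin_sq_add_cos_sq (Real.pi * y / 2)
  rw [div_pow, one_pow] at h12
  linarith

lemma D_trap_rec {t a : ℤ} (hg : Good (.trap t a)) (y : ℝ) :
    D (.trap t a) y ≤ ENNReal.ofReal (Real.sin (Real.pi * y / 2) ^ 2) *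
      D (n1 (.trap t a)) ((y + dg (.trap t a)) / 4) := by
  have := D_rec hg y
  simp only [n0] at this
  rwa [D_std, mul_zero, zero_add] at this

lemma step_dist {t a : ℤ} (hg : Good (.trap t a)) (y : ℝ) :
    |(y + dg (.trap t a)) / 4 + (((a - t * dg (.trap t a)) / 4 : ℤ) : ℝ) / t| =
      |y + (a : ℝ) / t| / 4 := by
  obtain ⟨h3, ht, ha, -⟩ := hg
  have ht0 : (0 : ℝ) < t := by exact_mod_cast (by omega : (0 : ℤ) < t)
  obtain ⟨-, h5, -⟩ := trap_step ht ha
  have h6 : (4 : ℝ) * (((a - t * dg (.trap t a)) / 4 : ℤ) : ℝ) = a - t * dg (.trap t a) := by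
    exact_mod_cast h5
  have h7 : (((a - t * dg (.trap t a)) / 4 : ℤ) : ℝ) = (a - t * dg (.trap t a)) / 4 := by linarith
  rw [h7]
  have : (y + (dg (.trap t a) : ℝ)) / 4 + ((a : ℝ) - t * dg (.trap t a)) / 4 / t =
      (y + (a : ℝ) / t) / 4 := by
    field_simp
    ring
  rw [this, abs_div]
  norm_num

lemma D_trap_pow (n : ℕ) : ∀ {t a : ℤ} (_ : Good (.trap t a)) {y : ℝ}
    (_ : |y + (a : ℝ) / t| ≤ 1 / (2 * t)),
    D (.trap t a) y ≤ (ENNReal.ofReal (1 - 1 / (2 * (t : ℝ)) ^ 2)) ^ n := by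
  induction n with
  | zero =>
    intro t a _ y _
    rw [pow_zero]
    exact D_le_one _ _
  | succ n ih =>
    intro t a hg y hy
    refine (D_trap_rec hg y).trans ?_
    rw [pow_succ' _ n]
    refine mul_le_mul' (ENNReal.ofReal_le_ofReal (sin_sq_le hg hy)) ?_
    refine ih (good_n1 hg) ?_
    rw [step_dist hg]
    have : 0 ≤ |y + (a : ℝ) / t| := abs_nonneg _
    linarith

lemma D_trap_near {t a : ℤ} (hg : Good (.trap t a)) {y : ℝ}
    (hy : |y + (a : ℝ) / t| ≤ 1 / (2 * t)) : D (.trap t a) y = 0 := by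
  have ht : (3 : ℝ) ≤ t := by exact_mod_cast hg.1
  refine le_antisymm ?_ bot_le
  refine ge_of_tendsto' (ENNReal.tendsto_pow_atTop_nhds_zero_of_lt_one
    (r := ENNReal.ofReal (1 - 1 / (2 * (t : ℝ)) ^ 2)) ?_) fun n => D_trap_pow n hg hy
  rw [← ENNReal.ofReal_one]
  refine (ENNReal.ofReal_lt_ofReal_iff (by norm_num)).mpr ?_
  have : 0 < 1 / (2 * (t : ℝ)) ^ 2 := by positivity
  linarith

lemma D_trap {t a : ℤ} (hg : Good (.trap t a)) (y : ℝ) : D (.trap t a) y = 0 := by
  have key : ∀ (n : ℕ) {t a : ℤ} (_ : Good (.trap t a)) (y : ℝ)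
      (_ : |y + (a : ℝ) / t| ≤ 4 ^ n * (1 / (2 * t))), D (.trap t a) y = 0 := by
    intro n
    induction n with
    | zero =>
      intro t a hg y hy
      rw [pow_zero, one_mul] at hy
      exact D_trap_near hg hy
    | succ n ih =>
      intro t a hg y hy
      refine le_antisymm ((D_trap_rec hg y).trans ?_) bot_le
      have h1 : D (n1 (.trap t a)) ((y + dg (.trap t a)) / 4) = 0 := by
        refine ih (good_n1 hg) _ ?_
        rw [step_dist hg]
        rw [pow_succ] at hy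
        linarith
      rw [h1, mul_zero]
  have ht : (3 : ℝ) ≤ t := by exact_mod_cast hg.1
  obtain ⟨n, hn⟩ := pow_unbounded_of_one_lt (|y + (a : ℝ) / t| * (2 * t))
    (by norm_num : (1 : ℝ) < 4)
  refine key n hg y ?_
  rw [mul_one_div, le_div_iff₀ (by positivity)]
  exact hn.le

lemma D_main_le (j n : ℕ) (x : ℝ) : D (.main j) x ≤ D (.main (j + n)) (x / 4 ^ n) := by
  induction n with
  | zero => simp
  | succ n ih =>
    refine ih.trans ?_
    have h1 := D_rec (v := .main (j + n)) trivial (x / 4 ^ n)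
    simp only [n0] at h1
    have h2 : D (n1 (.main (j + n))) ((x / 4 ^ n + dg (.main (j + n))) / 4) = 0 :=
      D_trap (good_n1 (v := .main (j + n)) trivial) _
    rw [h2, mul_zero, add_zero] at h1
    have h3 : x / 4 ^ n / 4 = x / 4 ^ (n + 1) := by rw [div_div, ← pow_succ]
    rw [h3] at h1
    refine h1.trans ?_
    have h4 : ENNReal.ofReal (Real.cos (Real.pi * (x / 4 ^ n) / 2) ^ 2) ≤ 1 := by
      rw [← ENNReal.ofReal_one]
      exact ENNReal.ofReal_le_ofReal (Real.cos_sq_le_one _)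
    calc _ ≤ 1 * D (.main (j + n + 1)) (x / 4 ^ (n + 1)) := mul_le_mul' h4 le_rfl
      _ = _ := by rw [one_mul, add_assoc]

lemma D_main (j : ℕ) (x : ℝ) : D (.main j) x = 0 := by
  refine le_antisymm ?_ bot_le
  have hlim : Tendsto (fun n : ℕ => 1 - ENNReal.ofReal (M (x / 4 ^ n))) atTop (𝓝 (1 - 1)) := by
    have h1 : Tendsto (fun n : ℕ => ENNReal.ofReal (M (x / 4 ^ n))) atTop
        (𝓝 (ENNReal.ofReal 1)) := ENNReal.tendsto_ofReal (tendsto_M x)
    rw [ENNReal.ofReal_one] at h1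
    exact ENNReal.Tendsto.sub tendsto_const_nhds h1 (Or.inl ENNReal.one_ne_top)
  rw [tsub_self] at hlim
  exact ge_of_tendsto' hlim fun n => (D_main_le j n x).trans (D_le _ _)

/-- the spectrum -/
def Lam : Set ℤ := A (.main 0)

lemma one_le_Q (x : ℝ) : 1 ≤ Q (.main 0) x := by
  have := D_main 0 x
  unfold D at this
  exact tsub_eq_zero_iff_le.mp this

end Pool.Agent.R249.Sp
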