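import Pool.Agent.R249.Sp.Meas

/-! The Fourier transform of `mu4`. -/

set_option autoImplicit false

open MeasureTheory Set Filter Topology
open scoped ENNReal

namespace Pool.Agent.R249.Sp

/-- the Fourier transform of `mu4` -/
noncomputable def F (ξ : ℝ) : ℂ := ∫ x : ℝ, Complex.exp (2 * Real.pi * Complex.I * ξ * x) ∂mu4

/-- its squared modulus -/
noncomputable def M (ξ : ℝ) : ℝ := ‖F ξ‖ ^ 2

lemma norm_cexp (a : ℝ) : ‖Complex.exp (2 * Real.pi * Complex.I * a)‖ = 1 := by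
  have : (2 * Real.pi * Complex.I * a : ℂ) = ((2 * Real.pi * a : ℝ) : ℂ) * Complex.I := by
    push_cast; ring
  rw [this, Complex.norm_exp_ofReal_mul_I]

lemma norm_cexp' (a x : ℝ) : ‖Complex.exp (2 * Real.pi * Complex.I * a * x)‖ = 1 := by
  have : (2 * Real.pi * Complex.I * a * x : ℂ) = 2 * Real.pi * Complex.I * ((a * x : ℝ) : ℂ) := by
    push_cast; ring
  rw [this, norm_cexp]

lemma F_eq_charFun (ξ : ℝ) : F ξ = charFun mu4 (2 * Real.pi * ξ) := by
  unfold F
  rw [charFun_apply_real]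
  congr 1
  funext x
  congr 1
  push_cast
  ring

lemma continuous_F : Continuous F := by
  have h : F = fun ξ : ℝ => charFun mu4 (2 * Real.pi * ξ) := funext F_eq_charFun
  rw [h]
  exact continuous_charFun.comp (by fun_prop)

lemma F_zero : F 0 = 1 := by
  rw [F_eq_charFun, mul_zero, charFun_zero]
  simp

lemma norm_F_le (ξ : ℝ) : ‖F ξ‖ ≤ 1 := by
  rw [F_eq_charFun]
  exact norm_charFun_le_one _

lemma continuous_M : Continuous M := (continuous_F.norm).pow 2

lemma M_zero : M 0 = 1 := by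
  unfold M
  rw [F_zero]
  simp

lemma M_nonneg (ξ : ℝ) : 0 ≤ M ξ := by unfold M; positivity

lemma M_le_one (ξ : ℝ) : M ξ ≤ 1 := by
  unfold M
  exact pow_le_one₀ (norm_nonneg _) (norm_F_le ξ)

lemma integrable_cexp (a b : ℝ) {μ : Measure ℝ} [IsFiniteMeasure μ] :
    Integrable (fun x : ℝ => Complex.exp (2 * Real.pi * Complex.I * a * ((b * x : ℝ) : ℂ))) μ := by
  refine Integrable.mono' (g := fun _ => 1) (integrable_const 1) ?_ ?_
  · exact (by fun_prop : Continuous _).aestronglyMeasurable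
  · refine Filter.Eventually.of_forall fun x => ?_
    rw [norm_cexp']

lemma F_rec (ξ : ℝ) : F ξ = (1 + Complex.exp (Real.pi * Complex.I * ξ)) / 2 * F (ξ / 4) := by
  have hint : ∀ (f : ℝ → ℂ) (_ : Continuous f) (_ : ∀ x, ‖f x‖ ≤ 1) (ν : Measure ℝ)
      (_ : IsFiniteMeasure ν), Integrable f ν := by
    intro f hf hb ν _
    exact Integrable.mono' (g := fun _ => 1) (integrable_const 1) hf.aestronglyMeasurable
      (Filter.Eventually.of_forall hb)
  have hc : Continuous fun x : ℝ => Complex.exp (2 * Real.pi * Complex.I * ξ * x) := by fun_prop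
  have h1 : F ξ = ∫ x : ℝ, Complex.exp (2 * Real.pi * Complex.I * ξ * x)
      ∂((2⁻¹ : ℝ≥0∞) • mu4.map (fun x => x / 4) +
    (2⁻¹ : ℝ≥0∞) • mu4.map (fun x => (x + 2) / 4)) := by
    rw [← mu4_eq]
    rfl
  have p0 : IsProbabilityMeasure (mu4.map (fun x : ℝ => x / 4)) :=
    Measure.isProbabilityMeasure_map (by fun_prop)
  have p1 : IsProbabilityMeasure (mu4.map (fun x : ℝ => (x + 2) / 4)) :=
    Measure.isProbabilityMeasure_map (by fun_prop)
  rw [h1, integral_add_measure, integral_smul_measure, integral_smul_measure,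
    integral_map (by fun_prop) hc.aestronglyMeasurable,
    integral_map (by fun_prop) hc.aestronglyMeasurable]
  · have e1 : ∀ x : ℝ, Complex.exp (2 * Real.pi * Complex.I * ξ * ((x / 4 : ℝ) : ℂ)) =
        Complex.exp (2 * Real.pi * Complex.I * ((ξ / 4 : ℝ) : ℂ) * x) := by
      intro x
      congr 1
      push_cast
      ring
    have e2 : ∀ x : ℝ, Complex.exp (2 * Real.pi * Complex.I * ξ * (((x + 2) / 4 : ℝ) : ℂ)) =
        Complex.exp (Real.pi * Complex.I * ξ) *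
          Complex.exp (2 * Real.pi * Complex.I * ((ξ / 4 : ℝ) : ℂ) * x) := by
      intro x
      rw [← Complex.exp_add]
      congr 1
      push_cast
      ring
    simp_rw [e2, e1]
    rw [integral_const_mul]
    unfold F
    simp only [ENNReal.toReal_inv, ENNReal.toReal_ofNat]
    rw [Complex.real_smul, Complex.real_smul]
    push_cast
    ring
  · have := hint _ hc (fun x => by rw [norm_cexp']) (mu4.map (fun x : ℝ => x / 4)) inferInstance
    exact this.smul_measure (by simp)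
  · have := hint _ hc (fun x => by rw [norm_cexp']) (mu4.map (fun x : ℝ => (x + 2) / 4))
      inferInstance
    exact this.smul_measure (by simp)

lemma normSq_mask (ξ : ℝ) :
    ‖(1 + Complex.exp (Real.pi * Complex.I * ξ)) / 2‖ ^ 2 = Real.cos (Real.pi * ξ / 2) ^ 2 := by
  have h : (1 + Complex.exp (Real.pi * Complex.I * ξ)) / 2 =
      Complex.exp (((Real.pi * ξ / 2 : ℝ) : ℂ) * Complex.I) * ((Real.cos (Real.pi * ξ / 2) : ℝ) : ℂ)
      := by
    rw [Complex.ofReal_cos, Complex.cos]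
    rw [mul_div_assoc', mul_add, ← Complex.exp_add, ← Complex.exp_add]
    congr 1
    rw [add_comm]
    congr 1
    · congr 1
      push_cast
      ring
    · rw [← Complex.exp_zero]
      congr 1
      push_cast
      ring
  rw [h, norm_mul, Complex.norm_exp_ofReal_mul_I, one_mul, Complex.norm_real, Real.norm_eq_abs,
    sq_abs]

lemma M_rec (ξ : ℝ) : M ξ = Real.cos (Real.pi * ξ / 2) ^ 2 * M (ξ / 4) := by
  unfold M
  rw [F_rec ξ, norm_mul, mul_pow, normSq_mask]

lemma tendsto_div_pow (ξ : ℝ) : Tendsto (fun n : ℕ => ξ / 4 ^ n) atTop (𝓝 0) := by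
  have h := (tendsto_pow_atTop_nhds_zero_of_lt_one (r := (1 / 4 : ℝ)) (by norm_num)
    (by norm_num)).const_mul ξ
  rw [mul_zero] at h
  refine h.congr fun n => ?_
  rw [one_div, inv_pow]
  rfl

lemma tendsto_M (ξ : ℝ) : Tendsto (fun n : ℕ => M (ξ / 4 ^ n)) atTop (𝓝 1) := by
  have h := (continuous_M.tendsto 0).comp (tendsto_div_pow ξ)
  rw [M_zero] at h
  exact h

lemma one_sub_M_le_aux (ξ : ℝ) (n : ℕ) : 1 - M ξ ≤ (4 * Real.pi ^ 2 / 15) * ξ ^ 2 +
    (1 - M (ξ / 4 ^ n)) := by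
  induction n generalizing ξ with
  | zero =>
    have : 0 ≤ (4 * Real.pi ^ 2 / 15) * ξ ^ 2 := by positivity
    simp only [pow_zero, div_one]
    linarith
  | succ n ih =>
    have h1 := ih (ξ / 4)
    have h2 : ξ / 4 / 4 ^ n = ξ / 4 ^ (n + 1) := by
      rw [div_div, pow_succ, mul_comm]
    rw [h2] at h1
    have h3 := M_rec ξ
    have h4 : Real.sin (Real.pi * ξ / 2) ^ 2 ≤ (Real.pi * ξ / 2) ^ 2 := by
      rw [← sq_abs, ← sq_abs (Real.pi * ξ / 2)]
      exact pow_le_pow_left₀ (abs_nonneg _) Real.abs_sin_le_abs 2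
    have h5 := Real.sin_sq_add_cos_sq (Real.pi * ξ / 2)
    have h6 := M_nonneg (ξ / 4)
    have h7 := M_le_one (ξ / 4)
    have h8 : 1 - M ξ ≤ Real.sin (Real.pi * ξ / 2) ^ 2 + (1 - M (ξ / 4)) := by
      rw [h3]
      have h9 : Real.cos (Real.pi * ξ / 2) ^ 2 = 1 - Real.sin (Real.pi * ξ / 2) ^ 2 := by linarith
      rw [h9]
      have h10 : Real.sin (Real.pi * ξ / 2) ^ 2 * M (ξ / 4) ≤ Real.sin (Real.pi * ξ / 2) ^ 2 := by
        apply mul_le_of_le_one_right (sq_nonneg _) h7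
      linarith
    have e : (4 * Real.pi ^ 2 / 15) * ξ ^ 2 = (Real.pi * ξ / 2) ^ 2 +
        (4 * Real.pi ^ 2 / 15) * (ξ / 4) ^ 2 := by ring
    rw [e]
    linarith

lemma one_sub_M_le (ξ : ℝ) : 1 - M ξ ≤ (4 * Real.pi ^ 2 / 15) * ξ ^ 2 := by
  have h : Tendsto (fun n : ℕ => (4 * Real.pi ^ 2 / 15) * ξ ^ 2 + (1 - M (ξ / 4 ^ n))) atTop
      (𝓝 ((4 * Real.pi ^ 2 / 15) * ξ ^ 2 + (1 - 1))) :=
    ((tendsto_M ξ).const_sub 1).const_add _
  rw [sub_self, add_zero] at h
  exact ge_of_tendsto' h (one_sub_M_le_aux ξ)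

lemma M_lower {x : ℝ} (hx : |x| ≤ 1 / 2) : 1 / 4 ≤ M x := by
  have h := one_sub_M_le x
  have h1 : x ^ 2 ≤ 1 / 4 := by
    rw [← sq_abs]
    have := pow_le_pow_left₀ (abs_nonneg x) hx 2
    linarith
  have h2 : Real.pi ^ 2 ≤ 10 := by
    have := Real.pi_lt_d2
    have h0 := Real.pi_pos
    nlinarith
  nlinarith [sq_nonneg x]

lemma F_neg (ξ : ℝ) : F (-ξ) = (starRingEnd ℂ) (F ξ) := by
  rw [F_eq_charFun, F_eq_charFun, mul_neg, charFun_neg]

lemma M_neg (ξ : ℝ) : M (-ξ) = M ξ := by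
  unfold M
  rw [F_neg, Complex.norm_conj]

lemma exp_odd {m : ℤ} (hm : Odd m) : Complex.exp (Real.pi * Complex.I * ((m : ℝ) : ℂ)) = -1 := by
  obtain ⟨k, rfl⟩ := hm
  have : (Real.pi * Complex.I * (((2 * k + 1 : ℤ) : ℝ) : ℂ)) =
      (k : ℂ) * (2 * Real.pi * Complex.I) + Real.pi * Complex.I := by
    push_cast
    ring
  rw [this, Complex.exp_add, Complex.exp_int_mul_two_pi_mul_I, Complex.exp_pi_mul_I]
  ring

lemma F_odd {m : ℤ} (hm : Odd m) : F m = 0 := by
  rw [F_rec, exp_odd hm]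
  ring

lemma F_four (m : ℤ) : F ((4 * m : ℤ) : ℝ) = F m := by
  rw [F_rec]
  have h1 : Complex.exp (Real.pi * Complex.I * (((4 * m : ℤ) : ℝ) : ℂ)) = 1 := by
    have : (Real.pi * Complex.I * (((4 * m : ℤ) : ℝ) : ℂ)) =
        ((2 * m : ℤ) : ℂ) * (2 * Real.pi * Complex.I) := by
      push_cast
      ring
    rw [this, Complex.exp_int_mul_two_pi_mul_I]
  rw [h1]
  have h2 : ((4 * m : ℤ) : ℝ) / 4 = m := by
    push_cast
    ring
  rw [h2]
  ring

lemma F_four_pow (m : ℤ) (k : ℕ) : F ((4 ^ k * m : ℤ) : ℝ) = F m := by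
  induction k with
  | zero => simp
  | succ k ih =>
    have : (4 ^ (k + 1) * m : ℤ) = 4 * (4 ^ k * m) := by ring
    rw [this, F_four, ih]

/-- integers of the form `4^k m`, `m` odd -/
def Z4 (z : ℤ) : Prop := ∃ (k : ℕ) (m : ℤ), Odd m ∧ z = 4 ^ k * m

lemma F_Z4 {z : ℤ} (hz : Z4 z) : F z = 0 := by
  obtain ⟨k, m, hm, rfl⟩ := hz
  rw [F_four_pow, F_odd hm]

lemma exists_odd_of_cos {x : ℝ} (h : Real.cos (Real.pi * x / 2) = 0) : ∃ m : ℤ, Odd m ∧ x = m := by
  rw [Real.cos_eq_zero_iff] at h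
  obtain ⟨k, hk⟩ := h
  refine ⟨2 * k + 1, ⟨k, rfl⟩, ?_⟩
  have hpi := Real.pi_pos
  push_cast
  have : Real.pi * x = Real.pi * (2 * k + 1) := by linarith
  exact mul_left_cancel₀ hpi.ne' this

lemma exists_Z4_of_zero {ξ : ℝ} (h : F ξ = 0) : ∃ z : ℤ, Z4 z ∧ ξ = z := by
  by_contra hcon
  push Not at hcon
  have key : ∀ n : ℕ, F (ξ / 4 ^ n) = 0 := by
    intro n
    induction n with
    | zero => simpa using h
    | succ n ih =>
      rw [F_rec] at ih
      rcases mul_eq_zero.mp ih with h1 | h1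
      · exfalso
        have h2 : ‖(1 + Complex.exp (Real.pi * Complex.I * ((ξ / 4 ^ n : ℝ) : ℂ))) / 2‖ ^ 2 = 0 := by
          rw [h1]; simp
        rw [normSq_mask] at h2
        obtain ⟨m, hm, hx⟩ := exists_odd_of_cos (pow_eq_zero_iff (two_ne_zero) |>.mp h2)
        apply hcon (4 ^ n * m) ⟨n, m, hm, rfl⟩
        push_cast
        rw [← hx]
        field_simp
      · rw [div_div, ← pow_succ] at h1
        exact h1
  have h1 := tendsto_M ξ
  have h2 : (fun n : ℕ => M (ξ / 4 ^ n)) = fun _ => 0 := by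
    funext n
    unfold M
    rw [key n]
    simp
  rw [h2] at h1
  have := tendsto_nhds_unique h1 tendsto_const_nhds
  norm_num at this

end Pool.Agent.R249.Sp
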