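import Pool.Agent.R249.Sp.Comp

/-! Hilbert space part. -/

set_option autoImplicit false

open MeasureTheory Set Filter Topology
open scoped ENNReal InnerProductSpace

namespace Pool.Agent.R249.Sp

/-- abstract completeness criterion -/
lemma orth_eq_bot {H ι : Type*} [NormedAddCommGroup H] [InnerProductSpace ℂ H]
    {v : ι → H} (hv : Orthonormal ℂ v) (S : Set H)
    (htot : ∀ y : H, (∀ x ∈ S, ⟪y, x⟫_ℂ = 0) → y = 0)
    (hS : ∀ x ∈ S, ENNReal.ofReal (‖x‖ ^ 2) ≤ ∑' i, ENNReal.ofReal (‖⟪v i, x⟫_ℂ‖ ^ 2)) :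
    (Submodule.span ℂ (range v))ᗮ = ⊥ := by
  rw [Submodule.eq_bot_iff]
  intro y hy
  by_contra hne
  apply hne
  have hy' : ∀ i, ⟪v i, y⟫_ℂ = 0 := fun i =>
    (Submodule.mem_orthogonal _ _).mp hy _ (Submodule.subset_span ⟨i, rfl⟩)
  refine htot y fun x hx => ?_
  by_contra hxy
  have hyn : 0 < ‖y‖ := norm_pos_iff.mpr hne
  -- component orthogonal to y
  set c : ℂ := ⟪y, x⟫_ℂ / (‖y‖ ^ 2 : ℝ) with hc
  set z : H := x - c • y with hz
  have hyz : ⟪y, z⟫_ℂ = 0 := by
    rw [hz, inner_sub_right, inner_smul_right, hc, inner_self_eq_norm_sq_to_K]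
    have : ((‖y‖ ^ 2 : ℝ) : ℂ) ≠ 0 := by
      exact_mod_cast (by positivity : (‖y‖ ^ 2 : ℝ) ≠ 0)
    have e : ((‖y‖ : ℂ)) ^ 2 = ((‖y‖ ^ 2 : ℝ) : ℂ) := by push_cast; rfl
    simp only [Complex.coe_algebraMap]
    rw [e, div_mul_cancel₀ _ this, sub_self]
  have hvz : ∀ i, ⟪v i, z⟫_ℂ = ⟪v i, x⟫_ℂ := by
    intro i
    rw [hz, inner_sub_right, inner_smul_right, hy' i, mul_zero, sub_zero]
  have hpyth : ‖x‖ ^ 2 = ‖c • y‖ ^ 2 + ‖z‖ ^ 2 := by
    have : x = c • y + z := by rw [hz]; abel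
    rw [this, sq, sq, sq]
    refine norm_add_sq_eq_norm_sq_add_norm_sq_of_inner_eq_zero (𝕜 := ℂ) _ _ ?_
    rw [inner_smul_left, hyz, mul_zero]
  have hcpos : 0 < ‖c • y‖ ^ 2 := by
    have : c ≠ 0 := by
      rw [hc]
      apply div_ne_zero hxy
      exact_mod_cast (by positivity : (‖y‖ ^ 2 : ℝ) ≠ 0)
    have h2 : c • y ≠ 0 := smul_ne_zero this hne
    have := norm_pos_iff.mpr h2
    positivity
  -- Bessel
  have hsum := hv.inner_products_summable (x := z)
  have hbes := hv.tsum_inner_products_le z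
  have h1 : ∑' i, ENNReal.ofReal (‖⟪v i, x⟫_ℂ‖ ^ 2) = ENNReal.ofReal (∑' i, ‖⟪v i, z⟫_ℂ‖ ^ 2) := by
    rw [ENNReal.ofReal_tsum_of_nonneg (fun i => sq_nonneg _) hsum]
    simp_rw [hvz]
  have h2 := hS x hx
  rw [h1] at h2
  rw [ENNReal.ofReal_le_ofReal_iff (tsum_nonneg fun i => sq_nonneg _)] at h2
  linarith

/-- the exponential `e_l` -/
noncomputable def ee (l x : ℝ) : ℂ := Complex.exp (-(2 * Real.pi * Complex.I * l * x))

lemma ee_eq (l x : ℝ) : ee l x = Complex.exp (2 * Real.pi * Complex.I * ((-l : ℝ) : ℂ) * x) := by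
  unfold ee
  congr 1
  push_cast
  ring

lemma norm_ee (l x : ℝ) : ‖ee l x‖ = 1 := by
  rw [ee_eq, norm_cexp']

lemma continuous_ee (l : ℝ) : Continuous (ee l) := by
  unfold ee
  fun_prop

lemma memLp_ee (l : ℝ) (μ : Measure ℝ) [IsFiniteMeasure μ] : MemLp (ee l) 2 μ :=
  MemLp.of_bound (continuous_ee l).aestronglyMeasurable 1
    (Filter.Eventually.of_forall fun x => (norm_ee l x).le)

/-- the exponentials as elements of `L²(μ4)` -/
noncomputable def ev (l : ℝ) : Lp ℂ 2 mu4 := (memLp_ee l mu4).toLp _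

lemma ev_ae (l : ℝ) : (ev l : ℝ → ℂ) =ᵐ[mu4] ee l := MemLp.coeFn_toLp _

lemma inner_ev (a b : ℝ) : ⟪ev a, ev b⟫_ℂ = F (a - b) := by
  rw [L2.inner_def]
  unfold F
  refine integral_congr_ae ?_
  filter_upwards [ev_ae a, ev_ae b] with x ha hb
  rw [ha, hb]
  simp only [RCLike.inner_apply]
  unfold ee
  rw [← Complex.exp_conj, ← Complex.exp_add]
  congr 1
  simp only [map_neg, map_mul, Complex.conj_ofReal, Complex.conj_I, map_ofNat]
  push_cast
  ring

lemma norm_ev (a : ℝ) : ‖ev a‖ = 1 := by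
  have h := inner_ev a a
  rw [sub_self, F_zero, inner_self_eq_norm_sq_to_K] at h
  have h2 : (‖ev a‖ : ℝ) ^ 2 = 1 := by
    have : ((‖ev a‖ : ℂ)) ^ 2 = 1 := h
    exact_mod_cast this
  have h3 := norm_nonneg (ev a)
  nlinarith

lemma real_zero {u : ℝ → ℝ} (hu : Integrable u mu4)
    (h : ∀ ξ : ℝ, ∫ x : ℝ, Complex.exp (2 * Real.pi * Complex.I * ξ * x) * (u x : ℂ) ∂mu4 = 0) :
    u =ᵐ[mu4] 0 := by
  have hf1 : IsFiniteMeasure (mu4.withDensity fun x => ENNReal.ofReal (u x)) :=
    isFiniteMeasure_withDensity_ofReal hu.2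
  have hf2 : IsFiniteMeasure (mu4.withDensity fun x => ENNReal.ofReal (-u x)) :=
    isFiniteMeasure_withDensity_ofReal hu.neg.2
  have hm1 : AEMeasurable (fun x => ENNReal.ofReal (u x)) mu4 := hu.1.aemeasurable.ennreal_ofReal
  have hm2 : AEMeasurable (fun x => ENNReal.ofReal (-u x)) mu4 :=
    hu.neg.1.aemeasurable.ennreal_ofReal
  have hint : ∀ (g : ℝ → ℝ) (_ : Integrable g mu4) (ξ : ℝ), Integrable
      (fun x : ℝ => (g x) • Complex.exp (2 * Real.pi * Complex.I * ξ * x)) mu4 := by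
    intro g hg ξ
    have hg2 : Integrable (fun x : ℝ => ((g x : ℝ) : ℂ) *
        Complex.exp (2 * Real.pi * Complex.I * ξ * x)) mu4 := by
      refine hg.ofReal.mul_bdd (c := 1) ?_ ?_
      · exact (by fun_prop : Continuous _).aestronglyMeasurable
      · exact Filter.Eventually.of_forall fun x => by rw [norm_cexp']
    exact hg2.congr (Filter.Eventually.of_forall fun x => by simp only [Complex.real_smul])
  have hchar : charFun (mu4.withDensity fun x => ENNReal.ofReal (u x)) =
      charFun (mu4.withDensity fun x => ENNReal.ofReal (-u x)) := by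
    funext t
    obtain ⟨ξ, rfl⟩ : ∃ ξ : ℝ, t = 2 * Real.pi * ξ :=
      ⟨t / (2 * Real.pi), by have := Real.pi_pos; field_simp⟩
    have hexp : ∀ x : ℝ, Complex.exp (((2 * Real.pi * ξ : ℝ) : ℂ) * x * Complex.I) =
        Complex.exp (2 * Real.pi * Complex.I * ξ * x) := by
      intro x
      congr 1
      push_cast
      ring
    rw [charFun_apply_real, charFun_apply_real]
    simp_rw [hexp]
    rw [integral_withDensity_eq_integral_toReal_smul₀ hm1
      (Filter.Eventually.of_forall fun x => ENNReal.ofReal_lt_top),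
      integral_withDensity_eq_integral_toReal_smul₀ hm2
      (Filter.Eventually.of_forall fun x => ENNReal.ofReal_lt_top)]
    rw [← sub_eq_zero, ← integral_sub]
    · rw [← h ξ]
      refine integral_congr_ae (Filter.Eventually.of_forall fun x => ?_)
      simp only
      rw [← sub_smul, ENNReal.toReal_ofReal', ENNReal.toReal_ofReal', Complex.real_smul, mul_comm]
      congr 2
      rcases le_total (u x) 0 with h0 | h0
      · rw [max_eq_right h0, max_eq_left (by linarith)]; ring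
      · rw [max_eq_left h0, max_eq_right (by linarith)]; ring
    · refine (hint _ hu.pos_part ξ).congr (Filter.Eventually.of_forall fun x => ?_)
      simp only [ENNReal.toReal_ofReal']
    · refine (hint _ hu.neg_part ξ).congr (Filter.Eventually.of_forall fun x => ?_)
      simp only [ENNReal.toReal_ofReal']
  have heq := Measure.ext_of_charFun hchar
  have hfi : ∫⁻ x, ENNReal.ofReal (u x) ∂mu4 ≠ ⊤ := by
    have := hu.2
    exact ((lintegral_ofReal_le_lintegral_enorm u).trans_lt this).ne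
  rw [withDensity_eq_iff hm1 hm2 hfi] at heq
  filter_upwards [heq] with x hx
  simp only [Pi.zero_apply]
  rcases le_total (u x) 0 with h0 | h0
  · rw [ENNReal.ofReal_of_nonpos h0] at hx
    have := ENNReal.ofReal_eq_zero.mp hx.symm
    linarith
  · rw [ENNReal.ofReal_of_nonpos (by linarith : -u x ≤ 0)] at hx
    have := ENNReal.ofReal_eq_zero.mp hx
    linarith

/-- the exponentials are total -/
lemma total (y : Lp ℂ 2 mu4) (h : ∀ ξ : ℝ, ⟪ev ξ, y⟫_ℂ = 0) : y = 0 := by
  have hy : Integrable y mu4 := (Lp.memLp y).integrable (by norm_num)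
  have hinn : ∀ ξ : ℝ, ∫ x : ℝ, Complex.exp (2 * Real.pi * Complex.I * ξ * x) * y x ∂mu4 = 0 := by
    intro ξ
    rw [← h ξ, L2.inner_def]
    refine integral_congr_ae ?_
    filter_upwards [ev_ae ξ] with x hx
    rw [hx]
    simp only [RCLike.inner_apply]
    rw [mul_comm]
    congr 1
    unfold ee
    rw [← Complex.exp_conj]
    congr 1
    simp only [map_neg, map_mul, Complex.conj_ofReal, Complex.conj_I, map_ofNat]
    ring
  have hcexp : ∀ ξ x : ℝ, (starRingEnd ℂ) (Complex.exp (2 * Real.pi * Complex.I * ξ * x)) =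
      Complex.exp (2 * Real.pi * Complex.I * ((-ξ : ℝ) : ℂ) * x) := by
    intro ξ x
    rw [← Complex.exp_conj]
    congr 1
    simp only [map_mul, Complex.conj_ofReal, Complex.conj_I, map_ofNat]
    push_cast
    ring
  have hconj : ∀ ξ : ℝ, ∫ x : ℝ, Complex.exp (2 * Real.pi * Complex.I * ξ * x) *
      (starRingEnd ℂ) (y x) ∂mu4 = 0 := by
    intro ξ
    have h1 := hinn (-ξ)
    have h2 := congrArg (starRingEnd ℂ) h1
    rw [← integral_conj, map_zero] at h2
    rw [← h2]
    refine integral_congr_ae (Filter.Eventually.of_forall fun x => ?_)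
    simp only [map_mul]
    rw [hcexp, neg_neg]
  have hintm : ∀ (g : ℝ → ℂ) (_ : Integrable g mu4) (ξ : ℝ), Integrable
      (fun x : ℝ => Complex.exp (2 * Real.pi * Complex.I * ξ * x) * g x) mu4 := by
    intro g hg ξ
    refine hg.bdd_mul (c := 1) ?_ ?_
    · exact (by fun_prop : Continuous _).aestronglyMeasurable
    · exact Filter.Eventually.of_forall fun x => by rw [norm_cexp']
  have hyc : Integrable (fun x => (starRingEnd ℂ) (y x)) mu4 := by
    exact (Complex.conjCLE : ℂ →L[ℝ] ℂ).integrable_comp hy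
  have hre : (fun x => (y x).re) =ᵐ[mu4] 0 := by
    refine real_zero hy.re fun ξ => ?_
    have : ∀ x : ℝ, Complex.exp (2 * Real.pi * Complex.I * ξ * x) * (((y x).re : ℝ) : ℂ) =
        (Complex.exp (2 * Real.pi * Complex.I * ξ * x) * y x +
          Complex.exp (2 * Real.pi * Complex.I * ξ * x) * (starRingEnd ℂ) (y x)) / 2 := by
      intro x
      rw [Complex.re_eq_add_conj]
      ring
    simp_rw [this]
    rw [integral_div, integral_add (hintm _ hy ξ) (hintm _ hyc ξ), hinn, hconj]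
    simp
  have him : (fun x => (y x).im) =ᵐ[mu4] 0 := by
    refine real_zero hy.im fun ξ => ?_
    have : ∀ x : ℝ, Complex.exp (2 * Real.pi * Complex.I * ξ * x) * (((y x).im : ℝ) : ℂ) =
        (Complex.exp (2 * Real.pi * Complex.I * ξ * x) * y x -
          Complex.exp (2 * Real.pi * Complex.I * ξ * x) * (starRingEnd ℂ) (y x)) /
          (2 * Complex.I) := by
      intro x
      rw [Complex.im_eq_sub_conj]
      ring
    simp_rw [this]
    rw [integral_div, integral_sub (hintm _ hy ξ) (hintm _ hyc ξ), hinn, hconj]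
    simp
  rw [Lp.eq_zero_iff_ae_eq_zero]
  filter_upwards [hre, him] with x h1 h2
  apply Complex.ext
  · simpa using h1
  · simpa using h2

end Pool.Agent.R249.Sp
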