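import Mathlib

/-!
The self-similar probability measure `μ4 = (μ4 ∘ f0⁻¹ + μ4 ∘ f1⁻¹) / 2`, `f0 x = x / 4`,
`f1 x = (x + 2) / 4`, as the image of Lebesgue measure on `[0, 1)` under `∑ d_n 2^{-n} ↦ ∑ 2 d_n
4^{-n}` (binary digits `d_n`).
-/

set_option autoImplicit false

open MeasureTheory Set Filter Topology
open scoped ENNReal

namespace Pool.Agent.R249.Sp

/-- the `n`-th binary digit (`n = 0, 1, ...`) -/
noncomputable def dig (n : ℕ) (x : ℝ) : ℝ := ((⌊(2 : ℝ) ^ (n + 1) * x⌋ % 2 : ℤ) : ℝ)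

lemma dig_nonneg (n : ℕ) (x : ℝ) : 0 ≤ dig n x := by
  unfold dig
  exact_mod_cast Int.emod_nonneg _ (by norm_num)

lemma dig_le_one (n : ℕ) (x : ℝ) : dig n x ≤ 1 := by
  unfold dig
  have : ⌊(2 : ℝ) ^ (n + 1) * x⌋ % 2 < 2 := Int.emod_lt_of_pos _ (by norm_num)
  have h2 : ⌊(2 : ℝ) ^ (n + 1) * x⌋ % 2 ≤ 1 := by omega
  exact_mod_cast h2

lemma measurable_dig (n : ℕ) : Measurable (dig n) := by
  unfold dig
  have h1 : Measurable fun x : ℝ => ⌊(2 : ℝ) ^ (n + 1) * x⌋ :=
    Int.measurable_floor.comp (measurable_const.mul measurable_id)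
  have h2 : Measurable fun z : ℤ => ((z % 2 : ℤ) : ℝ) := measurable_from_top
  exact h2.comp h1

/-- the digit map -/
noncomputable def hh (x : ℝ) : ℝ := ∑' n : ℕ, 2 * dig n x / 4 ^ (n + 1)

lemma hasSum_geo : HasSum (fun n : ℕ => (2 : ℝ) / 4 ^ (n + 1)) (2 / 3) := by
  have h := (hasSum_geometric_of_lt_one (r := (1 / 4 : ℝ)) (by norm_num) (by norm_num)).mul_left
    (1 / 2)
  have e1 : (fun n : ℕ => (2 : ℝ) / 4 ^ (n + 1)) = fun n : ℕ => 1 / 2 * (1 / 4 : ℝ) ^ n := by
    funext n
    rw [pow_succ, div_pow, one_pow]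
    field_simp
    norm_num
  have e2 : (2 / 3 : ℝ) = 1 / 2 * (1 - 1 / 4)⁻¹ := by norm_num
  rw [e1, e2]
  exact h

lemma term_nonneg (x : ℝ) (n : ℕ) : 0 ≤ 2 * dig n x / 4 ^ (n + 1) := by
  have := dig_nonneg n x
  positivity

lemma term_le (x : ℝ) (n : ℕ) : 2 * dig n x / 4 ^ (n + 1) ≤ 2 / 4 ^ (n + 1) := by
  have := dig_le_one n x
  apply div_le_div_of_nonneg_right _ (by positivity)
  linarith

lemma summable_term (x : ℝ) : Summable fun n : ℕ => 2 * dig n x / 4 ^ (n + 1) :=
  Summable.of_nonneg_of_le (term_nonneg x) (term_le x) hasSum_geo.summable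

lemma hh_nonneg (x : ℝ) : 0 ≤ hh x := tsum_nonneg (term_nonneg x)

lemma hh_le (x : ℝ) : hh x ≤ 2 / 3 := by
  rw [← hasSum_geo.tsum_eq]
  exact (summable_term x).tsum_le_tsum (term_le x) hasSum_geo.summable

lemma measurable_hh : Measurable hh := by
  refine measurable_of_tendsto_metrizable
    (f := fun (N : ℕ) (x : ℝ) => ∑ n ∈ Finset.range N, 2 * dig n x / 4 ^ (n + 1)) ?_ ?_
  · intro N
    refine Finset.measurable_fun_sum _ fun n _ => ?_
    exact ((measurable_dig n).const_mul 2).div_const _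
  · rw [tendsto_pi_nhds]
    intro x
    exact (summable_term x).hasSum.tendsto_sum_nat

lemma dig_shift (n : ℕ) (x : ℝ) (k : ℤ) : dig n (2 * x - k) = dig (n + 1) x := by
  unfold dig
  have h1 : (2 : ℝ) ^ (n + 1) * (2 * x - k) = (2 : ℝ) ^ (n + 1 + 1) * x - ((2 ^ (n + 1) * k : ℤ) : ℝ)
      := by
    push_cast
    ring
  rw [h1, Int.floor_sub_intCast]
  congr 1
  have h2 : (2 : ℤ) ^ (n + 1) * k = 2 * (2 ^ n * k) := by ring
  rw [h2]
  omega

lemma hh_rec (x : ℝ) (k : ℤ) : hh x = (2 * dig 0 x + hh (2 * x - k)) / 4 := by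
  have h1 : hh x = 2 * dig 0 x / 4 ^ (0 + 1) + ∑' n : ℕ, 2 * dig (n + 1) x / 4 ^ (n + 1 + 1) := by
    unfold hh
    exact (summable_term x).tsum_eq_zero_add
  have h2 : ∑' n : ℕ, 2 * dig (n + 1) x / 4 ^ (n + 1 + 1) = (1 / 4) * hh (2 * x - k) := by
    unfold hh
    rw [← tsum_mul_left]
    congr 1
    funext n
    rw [dig_shift]
    rw [pow_succ (4 : ℝ) (n + 1)]
    field_simp
  rw [h1, h2]
  ring

lemma hh_left {x : ℝ} (h0 : 0 ≤ x) (h1 : x < 1 / 2) : hh x = hh (2 * x) / 4 := by
  have h2 : dig 0 x = 0 := by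
    unfold dig
    have : ⌊(2 : ℝ) ^ (0 + 1) * x⌋ = 0 := by
      rw [Int.floor_eq_iff]
      norm_num
      constructor <;> linarith
    rw [this]
    norm_num
  have := hh_rec x 0
  rw [this, h2]
  norm_num

lemma hh_right {x : ℝ} (h0 : 1 / 2 ≤ x) (h1 : x < 1) : hh x = (2 + hh (2 * x - 1)) / 4 := by
  have h2 : dig 0 x = 1 := by
    unfold dig
    have : ⌊(2 : ℝ) ^ (0 + 1) * x⌋ = 1 := by
      rw [Int.floor_eq_iff]
      norm_num
      constructor <;> linarith
    rw [this]
    norm_num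
  have := hh_rec x 1
  rw [this, h2]
  norm_num

/-- the measure `μ4` -/
noncomputable def mu4 : Measure ℝ := (volume.restrict (Ico (0 : ℝ) 1)).map hh

instance : IsProbabilityMeasure mu4 := by
  constructor
  unfold mu4
  rw [Measure.map_apply measurable_hh MeasurableSet.univ]
  simp

lemma mu4_apply {E : Set ℝ} (hE : MeasurableSet E) :
    mu4 E = volume (Ico (0 : ℝ) 1 ∩ hh ⁻¹' E) := by
  unfold mu4
  rw [Measure.map_apply measurable_hh hE, Measure.restrict_apply (measurable_hh hE), inter_comm]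

/-- self-similarity -/
lemma mu4_selfsim {E : Set ℝ} (hE : MeasurableSet E) :
    mu4 E = 2⁻¹ * mu4 ((fun x => x / 4) ⁻¹' E) + 2⁻¹ * mu4 ((fun x => (x + 2) / 4) ⁻¹' E) := by
  have hm0 : Measurable fun x : ℝ => x / 4 := by fun_prop
  have hm1 : Measurable fun x : ℝ => (x + 2) / 4 := by fun_prop
  rw [mu4_apply hE, mu4_apply (hm0 hE), mu4_apply (hm1 hE)]
  have hsplit : Ico (0 : ℝ) 1 ∩ hh ⁻¹' E = (Ico (0 : ℝ) (1 / 2) ∩ hh ⁻¹' E) ∪
      (Ico (1 / 2 : ℝ) 1 ∩ hh ⁻¹' E) := by
    rw [← union_inter_distrib_right, Ico_union_Ico_eq_Ico (by norm_num) (by norm_num)]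
  rw [hsplit, measure_union]
  · congr 1
    · have : Ico (0 : ℝ) (1 / 2) ∩ hh ⁻¹' E =
          (fun x : ℝ => 2 * x) ⁻¹' (Ico (0 : ℝ) 1 ∩ hh ⁻¹' ((fun x => x / 4) ⁻¹' E)) := by
        ext x
        simp only [mem_inter_iff, mem_Ico, mem_preimage]
        constructor
        · rintro ⟨⟨h1, h2⟩, h3⟩
          refine ⟨⟨by linarith, by linarith⟩, ?_⟩
          rwa [hh_left h1 h2] at h3
        · rintro ⟨⟨h1, h2⟩, h3⟩
          have h1' : 0 ≤ x := by linarith
          have h2' : x < 1 / 2 := by linarith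
          refine ⟨⟨h1', h2'⟩, ?_⟩
          rwa [hh_left h1' h2']
      rw [this, Real.volume_preimage_mul_left (by norm_num)]
      congr 1
      rw [abs_of_pos (by norm_num), ENNReal.ofReal_inv_of_pos (by norm_num)]
      norm_num
    · have : Ico (1 / 2 : ℝ) 1 ∩ hh ⁻¹' E =
          (fun x : ℝ => 2 * x) ⁻¹' ((fun y : ℝ => y + (-1)) ⁻¹'
            (Ico (0 : ℝ) 1 ∩ hh ⁻¹' ((fun x => (x + 2) / 4) ⁻¹' E))) := by
        ext x
        simp only [mem_inter_iff, mem_Ico, mem_preimage]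
        have e : 2 * x + -1 = 2 * x - 1 := by ring
        constructor
        · rintro ⟨⟨h1, h2⟩, h3⟩
          refine ⟨⟨by linarith, by linarith⟩, ?_⟩
          rw [hh_right h1 h2, add_comm] at h3
          rwa [e]
        · rintro ⟨⟨h1, h2⟩, h3⟩
          have h1' : 1 / 2 ≤ x := by linarith
          have h2' : x < 1 := by linarith
          refine ⟨⟨h1', h2'⟩, ?_⟩
          rw [e] at h3
          rwa [hh_right h1' h2', add_comm]
      rw [this, Real.volume_preimage_mul_left (by norm_num), measure_preimage_add_right]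
      congr 1
      rw [abs_of_pos (by norm_num), ENNReal.ofReal_inv_of_pos (by norm_num)]
      norm_num
  · refine (Disjoint.inter_left _ (Disjoint.inter_right _ ?_))
    rw [Set.disjoint_left]
    rintro x ⟨-, h1⟩ ⟨h2, -⟩
    linarith
  · exact measurableSet_Ico.inter (measurable_hh hE)

/-- self-similarity as an identity of measures -/
lemma mu4_eq : mu4 = (2⁻¹ : ℝ≥0∞) • mu4.map (fun x => x / 4) +
    (2⁻¹ : ℝ≥0∞) • mu4.map (fun x => (x + 2) / 4) := by
  ext E hE
  rw [Measure.add_apply, Measure.smul_apply, Measure.smul_apply,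
    Measure.map_apply (by fun_prop) hE, Measure.map_apply (by fun_prop) hE, smul_eq_mul,
    smul_eq_mul]
  exact mu4_selfsim hE

/-- the support is contained in `[0, 2/3]` -/
lemma mu4_compl : mu4 (Icc (0 : ℝ) (2 / 3))ᶜ = 0 := by
  rw [mu4_apply measurableSet_Icc.compl]
  have : hh ⁻¹' (Icc (0 : ℝ) (2 / 3))ᶜ = ∅ := by
    ext x
    simp only [mem_preimage, mem_compl_iff, mem_Icc, mem_empty_iff_false, iff_false, not_not]
    exact ⟨hh_nonneg x, hh_le x⟩
  rw [this]
  simp

/-- the `n`-th stage of the construction of the Cantor set -/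
def stage : ℕ → Set ℝ
  | 0 => Icc (0 : ℝ) (2 / 3)
  | n + 1 => ((fun x => 4 * x) ⁻¹' stage n) ∪ ((fun x => 4 * x + (-2)) ⁻¹' stage n)

lemma measurableSet_stage (n : ℕ) : MeasurableSet (stage n) := by
  induction n with
  | zero => exact measurableSet_Icc
  | succ n ih =>
    exact ((measurable_id.const_mul 4) ih).union
      (((measurable_id.const_mul 4).add_const (-2)) ih)

lemma volume_stage (n : ℕ) : volume (stage n) ≤ (2⁻¹ : ℝ≥0∞) ^ n := by
  induction n with
  | zero =>
    simp only [stage, Real.volume_Icc, pow_zero]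
    rw [← ENNReal.ofReal_one]
    exact ENNReal.ofReal_le_ofReal (by norm_num)
  | succ n ih =>
    simp only [stage]
    refine (measure_union_le _ _).trans ?_
    have h1 : volume ((fun x : ℝ => 4 * x) ⁻¹' stage n) = 4⁻¹ * volume (stage n) := by
      rw [Real.volume_preimage_mul_left (by norm_num)]
      congr 1
      rw [abs_of_pos (by norm_num), ENNReal.ofReal_inv_of_pos (by norm_num)]
      norm_num
    have h2 : volume ((fun x : ℝ => 4 * x + (-2)) ⁻¹' stage n) = 4⁻¹ * volume (stage n) := by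
      have : (fun x : ℝ => 4 * x + (-2)) ⁻¹' stage n =
          (fun x : ℝ => 4 * x) ⁻¹' ((fun y : ℝ => y + (-2)) ⁻¹' stage n) := rfl
      rw [this, Real.volume_preimage_mul_left (by norm_num), measure_preimage_add_right]
      congr 1
      rw [abs_of_pos (by norm_num), ENNReal.ofReal_inv_of_pos (by norm_num)]
      norm_num
    rw [h1, h2, ← add_mul]
    have h3 : (4⁻¹ + 4⁻¹ : ℝ≥0∞) = 2⁻¹ := by
      have : (4 : ℝ≥0∞) = 2 * 2 := by norm_num
      rw [this, ENNReal.mul_inv (by norm_num) (by norm_num), ← mul_add, ENNReal.inv_two_add_inv_two,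
        mul_one]
    rw [h3, pow_succ, mul_comm]
    exact mul_le_mul_left ih _

lemma mu4_stage (n : ℕ) : mu4 (stage n)ᶜ = 0 := by
  induction n with
  | zero => exact mu4_compl
  | succ n ih =>
    rw [mu4_selfsim (measurableSet_stage (n + 1)).compl]
    have h1 : mu4 ((fun x => x / 4) ⁻¹' (stage (n + 1))ᶜ) = 0 := by
      refine measure_mono_null ?_ ih
      intro x hx hx'
      apply hx
      left
      simp only [mem_preimage]
      have : 4 * (x / 4) = x := by ring
      rwa [this]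
    have h2 : mu4 ((fun x => (x + 2) / 4) ⁻¹' (stage (n + 1))ᶜ) = 0 := by
      refine measure_mono_null ?_ ih
      intro x hx hx'
      apply hx
      right
      simp only [mem_preimage]
      have : 4 * ((x + 2) / 4) + -2 = x := by ring
      rwa [this]
    rw [h1, h2]
    simp

lemma mu4_singular : mu4 ⟂ₘ (volume : Measure ℝ) := by
  refine ⟨(⋂ n, stage n)ᶜ, (MeasurableSet.iInter measurableSet_stage).compl, ?_, ?_⟩
  · rw [compl_iInter]
    exact measure_iUnion_null mu4_stage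
  · rw [compl_compl]
    refine le_antisymm ?_ bot_le
    refine ge_of_tendsto' (ENNReal.tendsto_pow_atTop_nhds_zero_of_lt_one (r := 2⁻¹) ?_) fun n => ?_
    · exact ENNReal.inv_lt_one.mpr (by norm_num)
    · exact (measure_mono (iInter_subset _ n)).trans (volume_stage n)

lemma mu4_singleton (x : ℝ) : mu4 {x} = 0 := by
  set s : ℝ≥0∞ := ⨆ x : ℝ, mu4 {x} with hs
  have hs1 : s ≤ 1 := iSup_le fun x => prob_le_one
  have hle : ∀ x : ℝ, mu4 {x} ≤ 2⁻¹ * s := by
    intro x
    rw [mu4_selfsim (measurableSet_singleton x)]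
    have h0 : (fun y : ℝ => y / 4) ⁻¹' {x} = {4 * x} := by
      ext y
      simp only [mem_preimage, mem_singleton_iff]
      constructor
      · intro h; rw [← h]; ring
      · intro h; rw [h]; ring
    have h1 : (fun y : ℝ => (y + 2) / 4) ⁻¹' {x} = {4 * x - 2} := by
      ext y
      simp only [mem_preimage, mem_singleton_iff]
      constructor
      · intro h; rw [← h]; ring
      · intro h; rw [h]; ring
    rw [h0, h1]
    by_cases hx : 4 * x ∈ Icc (0 : ℝ) (2 / 3)
    · have : mu4 {4 * x - 2} = 0 := by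
        refine measure_mono_null ?_ mu4_compl
        intro y hy
        rw [mem_singleton_iff] at hy
        rw [hy, mem_compl_iff, mem_Icc, not_and_or]
        left
        have := hx.2
        linarith
      rw [this, mul_zero, add_zero]
      exact mul_le_mul_right (le_iSup (fun x => mu4 {x}) (4 * x)) _
    · have : mu4 {4 * x} = 0 := by
        refine measure_mono_null ?_ mu4_compl
        intro y hy
        rw [mem_singleton_iff] at hy
        rw [hy]
        exact hx
      rw [this, mul_zero, zero_add]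
      exact mul_le_mul_right (le_iSup (fun x => mu4 {x}) (4 * x - 2)) _
  have h2 : s ≤ 2⁻¹ * s := iSup_le hle
  have h3 : s = 0 := by
    by_contra hne
    have hfin : s ≠ ⊤ := (hs1.trans_lt ENNReal.one_lt_top).ne
    have h4 : 2⁻¹ * s < 1 * s :=
      (ENNReal.mul_lt_mul_iff_left hne hfin).mpr (ENNReal.inv_lt_one.mpr (by norm_num))
    rw [one_mul] at h4
    exact absurd h2 (not_le.mpr h4)
  refine le_antisymm ?_ bot_le
  rw [← h3]
  exact le_iSup (fun x => mu4 {x}) x

end Pool.Agent.R249.Sp
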