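import Pool.Agent.R249.Sp.Four

/-! The tree of digits and the sets of integers it defines. -/

set_option autoImplicit false

open MeasureTheory Set Filter Topology
open scoped ENNReal

namespace Pool.Agent.R249.Sp

/-- nodes of the tree -/
inductive Node
  | std : Node
  | trap (t a : ℤ) : Node
  | main (j : ℕ) : Node

/-- the nonzero digit at a node -/
def dg : Node → ℤ
  | .std => 1
  | .trap t a => (t * (a - 4)) % 8
  | .main _ => 1

/-- the child for the digit `0` -/
def n0 : Node → Node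
  | .std => .std
  | .trap _ _ => .std
  | .main j => .main (j + 1)

/-- the child for the nonzero digit -/
def n1 : Node → Node
  | .std => .std
  | .trap t a => .trap t ((a - t * dg (.trap t a)) / 4)
  | .main j => .trap (2 * j + 3) 1

/-- the set of integers attached to a node -/
inductive Mem : Node → ℤ → Prop
  | zero (v : Node) : Mem v 0
  | left (v : Node) (z : ℤ) : Mem (n0 v) z → Mem v (4 * z)
  | right (v : Node) (z : ℤ) : Mem (n1 v) z → Mem v (dg v + 4 * z)

/-- admissible nodes -/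
def Good : Node → Prop
  | .std => True
  | .trap t a => 3 ≤ t ∧ Odd t ∧ Odd a ∧ IsCoprime a t
  | .main _ => True

lemma trap_step {t a : ℤ} (ht : Odd t) (ha : Odd a) :
    Odd (dg (.trap t a)) ∧ 4 * ((a - t * dg (.trap t a)) / 4) = a - t * dg (.trap t a) ∧
      Odd ((a - t * dg (.trap t a)) / 4) := by
  simp only [dg]
  obtain ⟨k, rfl⟩ := ht
  obtain ⟨l, rfl⟩ := ha
  -- r = (t (a - 4)) mod 8
  have hr : ∃ q : ℤ, ((2 * k + 1) * (2 * l + 1 - 4)) % 8 = (2 * k + 1) * (2 * l + 1 - 4) - 8 * q :=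
    ⟨((2 * k + 1) * (2 * l + 1 - 4)) / 8, by omega⟩
  obtain ⟨q, hq⟩ := hr
  rw [hq]
  -- k (k + 1) is even
  obtain ⟨m, hm⟩ : ∃ m : ℤ, k * (k + 1) = 2 * m := by
    obtain ⟨m, hm⟩ := Int.even_mul_succ_self k
    exact ⟨m, by rw [hm]; ring⟩
  have e : (2 * l + 1) - (2 * k + 1) * ((2 * k + 1) * (2 * l + 1 - 4) - 8 * q) =
      4 * (1 - 2 * m * (2 * l - 3) + 2 * q * (2 * k + 1)) := by
    have : (2 * k + 1) * (2 * k + 1) = 8 * m + 1 := by
      have : (2 * k + 1) * (2 * k + 1) = 4 * (k * (k + 1)) + 1 := by ring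
      rw [this, hm]; ring
    calc (2 * l + 1) - (2 * k + 1) * ((2 * k + 1) * (2 * l + 1 - 4) - 8 * q)
        = (2 * l + 1) - ((2 * k + 1) * (2 * k + 1)) * (2 * l - 3) + 8 * q * (2 * k + 1) := by ring
      _ = _ := by rw [this]; ring
  refine ⟨?_, ?_, ?_⟩
  · refine ⟨2 * k * l - 3 * k + l - 2 - 4 * q, ?_⟩
    ring
  · rw [e, Int.mul_ediv_cancel_left _ (by norm_num)]
  · rw [e, Int.mul_ediv_cancel_left _ (by norm_num)]
    refine ⟨- m * (2 * l - 3) + q * (2 * k + 1), ?_⟩
    ring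

lemma good_n0 {v : Node} (_hv : Good v) : Good (n0 v) := by
  cases v <;> simp [n0, Good]

lemma good_n1 {v : Node} (hv : Good v) : Good (n1 v) := by
  cases v with
  | std => simp [n1, Good]
  | trap t a =>
    obtain ⟨h1, h2, h3, h4⟩ := hv
    obtain ⟨-, h5, h6⟩ := trap_step h2 h3
    refine ⟨h1, h2, h6, ?_⟩
    -- coprimality
    have h7 : IsCoprime (a - t * dg (.trap t a)) t := by
      have := h4.add_mul_left_left (-dg (.trap t a))
      have e : a + t * -dg (.trap t a) = a - t * dg (.trap t a) := by ring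
      rwa [e] at this
    rw [← h5] at h7
    exact h7.of_mul_left_right
  | main j =>
    refine ⟨by omega, ?_, odd_one, isCoprime_one_left⟩
    exact ⟨j + 1, by ring⟩

lemma odd_dg {v : Node} (hv : Good v) : Odd (dg v) := by
  cases v with
  | std => exact odd_one
  | trap t a => exact (trap_step hv.2.1 hv.2.2.1).1
  | main j => exact odd_one

/-- the set attached to a node -/
def A (v : Node) : Set ℤ := {z | Mem v z}

lemma A_eq (v : Node) : A v = (fun z => 4 * z) '' A (n0 v) ∪ (fun z => dg v + 4 * z) '' A (n1 v) := by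
  ext z
  constructor
  · intro h
    cases h with
    | zero => exact Or.inl ⟨0, Mem.zero _, by simp⟩
    | left _ z h => exact Or.inl ⟨z, h, rfl⟩
    | right _ z h => exact Or.inr ⟨z, h, rfl⟩
  · rintro (⟨z, h, rfl⟩ | ⟨z, h, rfl⟩)
    · exact Mem.left v z h
    · exact Mem.right v z h

lemma Z4_odd {z : ℤ} (h : Odd z) : Z4 z := ⟨0, z, h, by simp⟩

lemma Z4_four {z : ℤ} (h : Z4 z) : Z4 (4 * z) := by
  obtain ⟨k, m, hm, rfl⟩ := h
  exact ⟨k + 1, m, hm, by ring⟩

lemma Z4_neg {z : ℤ} (h : Z4 z) : Z4 (-z) := by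
  obtain ⟨k, m, hm, rfl⟩ := h
  exact ⟨k, -m, hm.neg, by ring⟩

lemma Z4_ne_zero {z : ℤ} (h : Z4 z) : z ≠ 0 := by
  obtain ⟨k, m, hm, rfl⟩ := h
  have : m ≠ 0 := by
    rintro rfl
    exact absurd hm (by decide)
  positivity

/-- differences of distinct elements are of the form `4^k * odd` -/
lemma A_diff {v : Node} (hv : Good v) {a b : ℤ} (ha : a ∈ A v) (hb : b ∈ A v) (hab : a ≠ b) :
    Z4 (a - b) := by
  induction hn : (a - b).natAbs using Nat.strong_induction_on generalizing v a b with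
  | _ n ih =>
  rw [A_eq] at ha hb
  have hd := odd_dg hv
  rcases ha with ⟨x, hx, rfl⟩ | ⟨x, hx, rfl⟩
  · rcases hb with ⟨y, hy, rfl⟩ | ⟨y, hy, rfl⟩
    · have hxy : x ≠ y := fun h => hab (by rw [h])
      have e : 4 * x - 4 * y = 4 * (x - y) := by ring
      simp only [e] at hn ⊢
      have hlt : (x - y).natAbs < n := by
        have : x - y ≠ 0 := sub_ne_zero.mpr hxy
        omega
      exact Z4_four (ih _ hlt (good_n0 hv) hx hy hxy rfl)
    · apply Z4_odd
      obtain ⟨k, hk⟩ := hd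
      refine ⟨2 * x - 2 * y - k - 1, ?_⟩
      simp only
      rw [hk]
      ring
  · rcases hb with ⟨y, hy, rfl⟩ | ⟨y, hy, rfl⟩
    · apply Z4_odd
      obtain ⟨k, hk⟩ := hd
      refine ⟨2 * x - 2 * y + k, ?_⟩
      simp only
      rw [hk]
      ring
    · have hxy : x ≠ y := fun h => hab (by rw [h])
      have e : (dg v + 4 * x) - (dg v + 4 * y) = 4 * (x - y) := by ring
      simp only [e] at hn ⊢
      have hlt : (x - y).natAbs < n := by
        have : x - y ≠ 0 := sub_ne_zero.mpr hxy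
        omega
      exact Z4_four (ih _ hlt (good_n1 hv) hx hy hxy rfl)

/-- the points which are added to dilated sets -/
def Extra : Node → ℤ → Prop
  | .std, _ => True
  | .trap t a, l => Odd t → Odd a → Z4 (a - t * l)
  | .main i, l => ∀ j : ℕ, i ≤ j → Z4 (4 ^ (j - i) * ((2 * j + 3) + 4) - (2 * j + 3) * l)

lemma extra {v : Node} {l : ℤ} (h : Mem v l) : Extra v l := by
  induction h with
  | zero v =>
    cases v with
    | std => trivial
    | trap t a => intro _ ha; rw [mul_zero, sub_zero]; exact Z4_odd ha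
    | main i =>
      intro j _
      rw [mul_zero, sub_zero]
      exact ⟨j - i, _, ⟨j + 3, by ring⟩, rfl⟩
  | left v z _ ih =>
    cases v with
    | std => trivial
    | trap t a =>
      intro _ ha
      obtain ⟨k, hk⟩ := ha
      exact Z4_odd ⟨k - 2 * t * z, by rw [hk]; ring⟩
    | main i =>
      intro j hj
      rcases hj.eq_or_lt with rfl | hlt
      · rw [Nat.sub_self, pow_zero]
        exact Z4_odd ⟨(i : ℤ) + 3 - 2 * (2 * i + 3) * z, by ring⟩
      · have h1 := ih j hlt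
        obtain ⟨m, hm⟩ : ∃ m, j - i = m + 1 := ⟨j - i - 1, by omega⟩
        have hm' : j - (i + 1) = m := by omega
        rw [hm'] at h1
        rw [hm]
        have e : (4 : ℤ) ^ (m + 1) * ((2 * j + 3) + 4) - (2 * j + 3) * (4 * z) =
            4 * (4 ^ m * ((2 * j + 3) + 4) - (2 * j + 3) * z) := by ring
        rw [e]
        exact Z4_four h1
  | right v z _ ih =>
    cases v with
    | std => trivial
    | trap t a =>
      intro ht ha
      obtain ⟨-, h5, h6⟩ := trap_step ht ha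
      have h1 := ih ht h6
      have e : a - t * (dg (.trap t a) + 4 * z) =
          4 * ((a - t * dg (.trap t a)) / 4 - t * z) := by
        rw [mul_sub, h5]; ring
      rw [e]
      exact Z4_four h1
    | main i =>
      intro j hj
      simp only [dg]
      rcases hj.eq_or_lt with rfl | hlt
      · rw [Nat.sub_self, pow_zero]
        have h1 := ih ⟨i + 1, by ring⟩ odd_one
        have e : (1 : ℤ) * ((2 * i + 3) + 4) - (2 * i + 3) * (1 + 4 * z) =
            4 * (1 - (2 * i + 3) * z) := by ring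
        rw [e]
        exact Z4_four h1
      · obtain ⟨m, hm⟩ : ∃ m, j - i = m + 1 := ⟨j - i - 1, by omega⟩
        rw [hm]
        apply Z4_odd
        refine ⟨2 * 4 ^ m * ((2 * j + 3) + 4) - (j + 2) - 2 * (2 * j + 3) * z, ?_⟩
        ring

/-- the sums `∑_{z ∈ A v} |F(x + z)|^2` -/
noncomputable def Q (v : Node) (x : ℝ) : ℝ≥0∞ := ∑' z : A v, ENNReal.ofReal (M (x + (z : ℤ)))

lemma M_left (x : ℝ) (z : ℤ) : M (x + ((4 * z : ℤ) : ℝ)) =
    Real.cos (Real.pi * x / 2) ^ 2 * M (x / 4 + z) := by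
  rw [M_rec]
  congr 2
  · have : Real.pi * (x + ((4 * z : ℤ) : ℝ)) / 2 = Real.pi * x / 2 + z * (2 * Real.pi) := by
      push_cast; ring
    rw [this, Real.cos_add_int_mul_two_pi]
  · push_cast; ring

lemma M_right (x : ℝ) (z : ℤ) {r : ℤ} (hr : Odd r) : M (x + ((r + 4 * z : ℤ) : ℝ)) =
    Real.sin (Real.pi * x / 2) ^ 2 * M ((x + r) / 4 + z) := by
  rw [M_rec]
  congr 1
  · obtain ⟨k, rfl⟩ := hr
    have : Real.pi * (x + ((2 * k + 1 + 4 * z : ℤ) : ℝ)) / 2 =
        (Real.pi * x / 2 + Real.pi / 2 + k * Real.pi) + z * (2 * Real.pi) := by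
      push_cast; ring
    rw [this, Real.cos_add_int_mul_two_pi, Real.cos_add_int_mul_pi, mul_pow]
    rw [Real.cos_add_pi_div_two, neg_sq]
    have h2 : (((-1 : ℝ) ^ k) ^ 2) = 1 := by
      rw [← zpow_natCast, ← zpow_mul, mul_comm, zpow_mul]
      norm_num
    rw [h2, one_mul]
  · congr 1
    push_cast; ring

lemma Q_rec {v : Node} (hv : Good v) (x : ℝ) :
    Q v x = ENNReal.ofReal (Real.cos (Real.pi * x / 2) ^ 2) * Q (n0 v) (x / 4) +
      ENNReal.ofReal (Real.sin (Real.pi * x / 2) ^ 2) * Q (n1 v) ((x + dg v) / 4) := by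
  have hd := odd_dg hv
  have hdisj : Disjoint ((fun z => 4 * z) '' A (n0 v)) ((fun z => dg v + 4 * z) '' A (n1 v)) := by
    rw [Set.disjoint_left]
    rintro z ⟨a, -, rfl⟩ ⟨b, -, hb⟩
    obtain ⟨k, hk⟩ := hd
    simp only at hb
    omega
  have h1 : Q v x = ∑' z : ((fun z => 4 * z) '' A (n0 v) ∪ (fun z => dg v + 4 * z) '' A (n1 v) :
      Set ℤ), ENNReal.ofReal (M (x + (z : ℤ))) := by
    unfold Q
    rw [← A_eq]
  have h2 := Summable.tsum_union_disjoint (f := fun z : ℤ => ENNReal.ofReal (M (x + (z : ℝ))))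
    hdisj ENNReal.summable ENNReal.summable
  refine h1.trans (h2.trans ?_)
  have hi0 : Set.InjOn (fun z : ℤ => 4 * z) (A (n0 v)) := by
    intro a _ b _ h
    simp only at h
    omega
  have hi1 : Set.InjOn (fun z : ℤ => dg v + 4 * z) (A (n1 v)) := by
    intro a _ b _ h
    simp only at h
    omega
  have e0 : ∑' z : ((fun z => 4 * z) '' A (n0 v) : Set ℤ), ENNReal.ofReal (M (x + (z : ℤ))) =
      ∑' z : A (n0 v), ENNReal.ofReal (M (x + ((4 * (z : ℤ) : ℤ) : ℝ))) :=
    tsum_image (fun z : ℤ => ENNReal.ofReal (M (x + (z : ℝ)))) hi0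
  have e1 : ∑' z : ((fun z => dg v + 4 * z) '' A (n1 v) : Set ℤ),
      ENNReal.ofReal (M (x + (z : ℤ))) =
      ∑' z : A (n1 v), ENNReal.ofReal (M (x + ((dg v + 4 * (z : ℤ) : ℤ) : ℝ))) :=
    tsum_image (fun z : ℤ => ENNReal.ofReal (M (x + (z : ℝ)))) hi1
  rw [e0, e1]
  congr 1
  · unfold Q
    rw [← ENNReal.tsum_mul_left]
    refine tsum_congr fun z => ?_
    rw [M_left, ENNReal.ofReal_mul (sq_nonneg _)]
  · unfold Q
    rw [← ENNReal.tsum_mul_left]
    refine tsum_congr fun z => ?_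
    rw [M_right _ _ hd, ENNReal.ofReal_mul (sq_nonneg _)]

/-- the defect -/
noncomputable def D (v : Node) (x : ℝ) : ℝ≥0∞ := 1 - Q v x

lemma D_le_one (v : Node) (x : ℝ) : D v x ≤ 1 := tsub_le_self

lemma D_le (v : Node) (x : ℝ) : D v x ≤ 1 - ENNReal.ofReal (M x) := by
  unfold D
  apply tsub_le_tsub_left
  unfold Q
  have h : (0 : ℤ) ∈ A v := Mem.zero v
  have := ENNReal.le_tsum (f := fun z : A v => ENNReal.ofReal (M (x + (z : ℤ)))) ⟨0, h⟩
  simpa using this

lemma D_rec {v : Node} (hv : Good v) (x : ℝ) :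
    D v x ≤ ENNReal.ofReal (Real.cos (Real.pi * x / 2) ^ 2) * D (n0 v) (x / 4) +
      ENNReal.ofReal (Real.sin (Real.pi * x / 2) ^ 2) * D (n1 v) ((x + dg v) / 4) := by
  unfold D
  rw [tsub_le_iff_right, Q_rec hv]
  set c := ENNReal.ofReal (Real.cos (Real.pi * x / 2) ^ 2)
  set s := ENNReal.ofReal (Real.sin (Real.pi * x / 2) ^ 2)
  set q0 := Q (n0 v) (x / 4)
  set q1 := Q (n1 v) ((x + dg v) / 4)
  have hcs : c + s = 1 := by
    rw [← ENNReal.ofReal_add (sq_nonneg _) (sq_nonneg _), Real.cos_sq_add_sin_sq,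
      ENNReal.ofReal_one]
  have h0 : 1 ≤ (1 - q0) + q0 := le_tsub_add
  have h1 : 1 ≤ (1 - q1) + q1 := le_tsub_add
  calc (1 : ℝ≥0∞) = c * 1 + s * 1 := by rw [mul_one, mul_one, hcs]
    _ ≤ c * ((1 - q0) + q0) + s * ((1 - q1) + q1) := by gcongr
    _ = c * (1 - q0) + s * (1 - q1) + (c * q0 + s * q1) := by ring

end Pool.Agent.R249.Sp
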